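import Pool.Agent.H295R3.NA.Stmts

set_option autoImplicit false

open Finset Filter Topology

namespace Pool.Agent.Helper923.NA

open Pool.Agent.H295R3.NA

theorem fac_prod (s : Finset ℕ) (hs : ∀ p ∈ s, p.Prime) (e : ℕ → ℕ) (q : ℕ) :
    (∏ p ∈ s, p ^ e p).factorization q = if q ∈ s then e q else 0 := by
  rw [Nat.factorization_prod fun p hp => pow_ne_zero _ (hs p hp).ne_zero, Finsupp.finsetSum_apply]
  have h : ∀ p ∈ s, (p ^ e p).factorization q = if p = q then e p else 0 := by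
    intro p hp
    rw [(hs p hp).factorization_pow, Finsupp.single_apply]
  rw [Finset.sum_congr rfl h, Finset.sum_ite_eq']

/-- exponent map -/
def ex (l a : ℕ) : ℕ := if l ∣ a + 1 then (a + 1) / l else 0

theorem ex_zero {l : ℕ} (hl : 2 ≤ l) : ex l 0 = 0 := by
  unfold ex
  rw [if_neg]
  intro h
  have := Nat.le_of_dvd one_pos h
  omega

/-- `D(n)` -/
noncomputable def DD (l n : ℕ) : ℕ := ∏ p ∈ n.primeFactors, p ^ ex l (n.factorization p)

/-- `B(D)` -/
noncomputable def BB (l D : ℕ) : ℕ := ∏ p ∈ D.primeFactors, p ^ (l * D.factorization p - 1)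

theorem fac_DD {l : ℕ} (hl : 2 ≤ l) (n q : ℕ) :
    (DD l n).factorization q = ex l (n.factorization q) := by
  unfold DD
  rw [fac_prod _ fun p hp => Nat.prime_of_mem_primeFactors hp]
  split_ifs with h
  · rfl
  · have : n.factorization q = 0 := by
      by_contra h0
      exact h (Nat.support_factorization n ▸ Finsupp.mem_support_iff.2 h0)
    rw [this, ex_zero hl]

theorem fac_BB (l D q : ℕ) : (BB l D).factorization q = l * D.factorization q - 1 := by
  unfold BB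
  rw [fac_prod _ fun p hp => Nat.prime_of_mem_primeFactors hp]
  split_ifs with h
  · rfl
  · have : D.factorization q = 0 := by
      by_contra h0
      exact h (Nat.support_factorization D ▸ Finsupp.mem_support_iff.2 h0)
    rw [this]; simp

theorem DD_ne (l n : ℕ) : DD l n ≠ 0 :=
  Finset.prod_ne_zero_iff.2 fun _ hp => pow_ne_zero _ (Nat.prime_of_mem_primeFactors hp).ne_zero

theorem BB_ne (l n : ℕ) : BB l n ≠ 0 :=
  Finset.prod_ne_zero_iff.2 fun _ hp => pow_ne_zero _ (Nat.prime_of_mem_primeFactors hp).ne_zero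

theorem fac_BD {l : ℕ} (hl : 2 ≤ l) (n q : ℕ) :
    (BB l (DD l n)).factorization q = if l ∣ n.factorization q + 1 then n.factorization q else 0 := by
  rw [fac_BB, fac_DD hl]
  unfold ex
  split_ifs with h
  · rw [Nat.mul_div_cancel' h]; simp
  · simp

theorem BD_dvd {l : ℕ} (hl : 2 ≤ l) {n : ℕ} (hn : n ≠ 0) : BB l (DD l n) ∣ n := by
  rw [← Nat.factorization_le_iff_dvd (BB_ne _ _) hn]
  intro q
  rw [fac_BD hl]
  split_ifs <;> omega

theorem pow_le_BB {l D : ℕ} (hl : 2 ≤ l) (hD : D ≠ 0) : D ^ (l - 1) ≤ BB l D := by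
  apply Nat.le_of_dvd (Nat.pos_of_ne_zero (BB_ne _ _))
  rw [← Nat.factorization_le_iff_dvd (pow_ne_zero _ hD) (BB_ne _ _)]
  intro q
  rw [Nat.factorization_pow, Finsupp.smul_apply, smul_eq_mul, fac_BB]
  rcases Nat.eq_zero_or_pos (D.factorization q) with h | h
  · rw [h]; simp
  · obtain ⟨k, rfl⟩ : ∃ k, l = k + 1 := ⟨l - 1, by omega⟩
    rw [Nat.add_sub_cancel, add_mul, one_mul]
    omega

theorem cnt_le {l n : ℕ} (hl : 2 ≤ l) (hn : n ≠ 0) : cnt l (n / BB l (DD l n)) ≤ cnt l n := by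
  unfold cnt
  have hd := BD_dvd hl hn
  have hm : n / BB l (DD l n) ≠ 0 := by
    have := Nat.div_pos (Nat.le_of_dvd (Nat.pos_of_ne_zero hn) hd)
      (Nat.pos_of_ne_zero (BB_ne l (DD l n)))
    omega
  refine card_le_card ?_
  intro q hq
  rw [mem_filter, Nat.mem_primeFactors] at hq ⊢
  obtain ⟨⟨hqp, hqm, _⟩, hsq, hlq⟩ := hq
  refine ⟨⟨hqp, hqm.trans (Nat.div_dvd_of_dvd hd), hn⟩, ?_, hlq⟩
  intro hqn
  apply hsq
  have h1 : 1 ≤ (n / BB l (DD l n)).factorization q :=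
    (hqp.dvd_iff_one_le_factorization hm).1 hqm
  have h2 : 2 ≤ n.factorization q := (hqp.pow_dvd_iff_le_factorization hn).1 hqn
  rw [hqp.pow_dvd_iff_le_factorization hm]
  rw [Nat.factorization_div hd, Finsupp.tsub_apply, fac_BD hl] at h1 ⊢
  split_ifs at h1 ⊢ <;> omega

theorem val_le (l j : ℕ) (hl : l.Prime) (hj : 1 ≤ j) : (l * j).factorization l ≤ j := by
  rw [Nat.factorization_mul hl.ne_zero (by omega), Finsupp.add_apply, hl.factorization_self]
  have h1 : l ^ (j.factorization l) ≤ j := Nat.ordProj_le l (by omega)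
  have h2 : j.factorization l < l ^ (j.factorization l) := Nat.lt_pow_self hl.one_lt
  omega

theorem two_pow_le {l n : ℕ} (hl : l.Prime) (hn : n ≠ 0) : 2 ^ padicValNat l (dd n) ≤ DD l n := by
  have h1 : padicValNat l (dd n) = ∑ p ∈ n.primeFactors, (n.factorization p + 1).factorization l := by
    unfold dd
    rw [Nat.card_divisors hn, ← Nat.factorization_def _ hl, Nat.factorization_prod
      (fun p _ => by omega), Finsupp.finsetSum_apply]
  rw [h1, ← Finset.prod_pow_eq_pow_sum]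
  unfold DD
  refine Finset.prod_le_prod (fun _ _ => by positivity) fun p hp => ?_
  have hpp := Nat.prime_of_mem_primeFactors hp
  unfold ex
  split_ifs with h
  · obtain ⟨j, hj⟩ := h
    rw [hj, Nat.mul_div_cancel_left _ hl.pos]
    have hj1 : 1 ≤ j := by
      rcases Nat.eq_zero_or_pos j with h | h
      · rw [h] at hj; omega
      · exact h
    calc 2 ^ (l * j).factorization l ≤ 2 ^ j := Nat.pow_le_pow_right (by norm_num) (val_le l j hl hj1)
      _ ≤ p ^ j := Nat.pow_le_pow_left hpp.two_le j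
  · rw [Nat.factorization_eq_zero_of_not_dvd h]; simp

/-- the structure of the bad numbers that are not of the main type -/
theorem struct {l n : ℕ} (hl : l.Prime) (hn : n ≠ 0) (F : F1) (hbad : Bad l n)
    (hmain : ¬ (padicValNat 2 n = l - 1 ∧ cnt l n = 0)) :
    3 ≤ DD l n ∧ cnt l (n / BB l (DD l n)) ≤ Nat.log 2 (DD l n) := by
  have h1 := two_pow_le hl hn
  have h2 := F l n hl (by omega)
  have h3 : padicValNat l (ss n) < padicValNat l (dd n) := hbad
  have hk : padicValNat l (dd n) ≤ Nat.log 2 (DD l n) :=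
    Nat.le_log_of_pow_le (by norm_num) h1
  have hc := cnt_le hl.two_le hn
  refine ⟨?_, by omega⟩
  have h4 : 2 ≤ DD l n := by
    calc 2 = 2 ^ 1 := by norm_num
      _ ≤ 2 ^ padicValNat l (dd n) := Nat.pow_le_pow_right (by norm_num) (by omega)
      _ ≤ _ := h1
  rcases Nat.lt_or_ge 2 (DD l n) with h | h
  · exact h
  · exfalso
    have h5 : DD l n = 2 := by omega
    rw [h5] at hk
    have h6 : Nat.log 2 2 = 1 := by
      rw [Nat.log_eq_one_iff]; omega
    rw [h6] at hk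
    apply hmain
    refine ⟨?_, by omega⟩
    have h7 := fac_DD hl.two_le n 2
    rw [h5, Nat.prime_two.factorization_self] at h7
    unfold ex at h7
    split_ifs at h7 with h8
    obtain ⟨j, hj⟩ := h8
    rw [hj, Nat.mul_div_cancel_left _ hl.pos] at h7
    rw [← h7, mul_one] at hj
    rw [← Nat.factorization_def _ Nat.prime_two]
    omega

theorem Nb_eq (P : ℕ → Prop) [DecidablePred P] (Y : ℕ) :
    Nb P Y = (((Icc 1 Y).filter (fun n => P n)).card : ℝ) := by
  unfold Nb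
  congr!

open Classical in
theorem union_bound {l x : ℕ} (hl : l.Prime) (F : F1) :
    Nb (fun n => Bad l n ∧ ¬ (padicValNat 2 n = l - 1 ∧ cnt l n = 0)) x ≤
      ∑ D ∈ Icc 3 x, Nb (fun m => cnt l m ≤ Nat.log 2 D) (x / BB l D) := by
  have hsub : (Icc 1 x).filter (fun n => Bad l n ∧ ¬ (padicValNat 2 n = l - 1 ∧ cnt l n = 0)) ⊆
      (Icc 3 x).biUnion fun D => ((Icc 1 (x / BB l D)).filter
        (fun m => cnt l m ≤ Nat.log 2 D)).image fun m => BB l D * m := by
    intro n hn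
    rw [mem_filter, mem_Icc] at hn
    obtain ⟨⟨hn1, hnx⟩, hbad, hmain⟩ := hn
    have hn0 : n ≠ 0 := by omega
    obtain ⟨h3, hc⟩ := struct hl hn0 F hbad hmain
    have hd := BD_dvd hl.two_le hn0
    have hpos := Nat.pos_of_ne_zero (BB_ne l (DD l n))
    have hle := Nat.le_of_dvd hn1 hd
    rw [mem_biUnion]
    refine ⟨DD l n, ?_, ?_⟩
    · rw [mem_Icc]
      refine ⟨h3, ?_⟩
      have h5 := pow_le_BB hl.two_le (DD_ne l n)
      have h6 : DD l n ≤ DD l n ^ (l - 1) := by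
        refine Nat.le_self_pow ?_ _
        have := hl.two_le
        omega
      omega
    · rw [mem_image]
      refine ⟨n / BB l (DD l n), ?_, Nat.mul_div_cancel' hd⟩
      rw [mem_filter, mem_Icc]
      exact ⟨⟨Nat.div_pos hle hpos, Nat.div_le_div_right hnx⟩, hc⟩
  have h1 := (card_le_card hsub).trans card_biUnion_le
  have h2 : ∑ D ∈ Icc 3 x, (((Icc 1 (x / BB l D)).filter
        (fun m => cnt l m ≤ Nat.log 2 D)).image fun m => BB l D * m).card ≤
      ∑ D ∈ Icc 3 x, ((Icc 1 (x / BB l D)).filter (fun m => cnt l m ≤ Nat.log 2 D)).card :=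
    Finset.sum_le_sum fun D _ => card_image_le
  rw [Nb_eq, Finset.sum_congr rfl (fun D _ => Nb_eq _ _), ← Nat.cast_sum]
  exact Nat.cast_le.2 (h1.trans h2)

open Classical in
theorem Nb_le (P : ℕ → Prop) (Y : ℕ) : Nb P Y ≤ Y := by
  unfold Nb
  refine Nat.cast_le.2 ((card_filter_le _ _).trans ?_)
  simp

theorem RS_mono (l : ℕ) {s Y : ℕ} (h : s ≤ Y) : RS l s ≤ RS l Y := by
  unfold RS
  refine Finset.sum_le_sum_of_subset_of_nonneg ?_ fun _ _ _ => by positivity
  exact filter_subset_filter _ (Icc_subset_Icc_right h)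

theorem LL_sqrt (x : ℕ) (hx : 16 ≤ Nat.sqrt x) : LL x - 1 ≤ LL (Nat.sqrt x) := by
  set s := Nat.sqrt x with hs
  have h1 : x < (s + 1) ^ 2 := by
    have := Nat.lt_succ_sqrt x
    rw [← hs] at this
    nlinarith
  have hs' : (16 : ℝ) ≤ s := by exact_mod_cast hx
  have hx1 : 1 ≤ x := by
    have := Nat.sqrt_le_self x
    omega
  have hsx : s ≤ x := Nat.sqrt_le_self x
  have hx16 : (16 : ℝ) ≤ x := hs'.trans (by exact_mod_cast hsx)
  have hlog16 : Real.log 16 = 4 * Real.log 2 := by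
    rw [show (16 : ℝ) = 2 ^ 4 by norm_num, Real.log_pow]; norm_num
  have hls : 4 * Real.log 2 ≤ Real.log s := by
    rw [← hlog16]; exact Real.log_le_log (by norm_num) hs'
  have hl2 : 0 < Real.log 2 := Real.log_pos (by norm_num)
  have h2 : Real.log x ≤ 5 / 2 * Real.log s := by
    have h3 : (x : ℝ) ≤ (2 * s) ^ 2 := by
      have h4 : (x : ℝ) ≤ (s + 1) ^ 2 := by exact_mod_cast h1.le
      nlinarith
    have h5 : Real.log x ≤ Real.log ((2 * s) ^ 2) := Real.log_le_log (by linarith) h3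
    rw [Real.log_pow, Real.log_mul (by norm_num) (by linarith)] at h5
    push_cast at h5
    linarith
  have hlx : 0 < Real.log x := Real.log_pos (by linarith)
  have h6 : Real.log (Real.log x) ≤ Real.log (5 / 2) + Real.log (Real.log s) := by
    rw [← Real.log_mul (by norm_num) (by linarith)]
    exact Real.log_le_log hlx h2
  have h7 : Real.log (5 / 2) ≤ 1 := by
    rw [Real.log_le_iff_le_exp (by norm_num)]
    have := Real.exp_one_gt_d9
    linarith
  unfold LL
  linarith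

theorem pow_log_bound (D : ℕ) (hD : D ≠ 0) : (100 : ℝ) ^ Nat.log 2 D ≤ (D : ℝ) ^ 7 := by
  have h1 : 2 ^ Nat.log 2 D ≤ D := Nat.pow_log_le_self 2 hD
  have h2 : (100 : ℝ) ^ Nat.log 2 D ≤ (128 : ℝ) ^ Nat.log 2 D := by gcongr; norm_num
  have h3 : (128 : ℝ) ^ Nat.log 2 D = ((2 : ℝ) ^ Nat.log 2 D) ^ 7 := by
    rw [← pow_mul, mul_comm, pow_mul]; norm_num
  have h4 : (2 : ℝ) ^ Nat.log 2 D ≤ D := by exact_mod_cast h1
  calc _ ≤ _ := h2
    _ = _ := h3
    _ ≤ _ := by gcongr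

theorem ratio_bound {l D b : ℕ} (hl : 10 ≤ l) (hD : 3 ≤ D) (hb : D ^ (l - 1) ≤ b) :
    (D : ℝ) ^ 7 / b ≤ 59049 * (1 / 3) ^ l * (1 / (D : ℝ) ^ 2) := by
  obtain ⟨k, rfl⟩ : ∃ k, l = k + 10 := ⟨l - 10, by omega⟩
  have hD' : (3 : ℝ) ≤ D := by exact_mod_cast hD
  have hD0 : (0 : ℝ) < D := by linarith
  have h1 : (D : ℝ) ^ (k + 9) ≤ b := by
    have : D ^ (k + 9) ≤ b := hb
    exact_mod_cast this
  have h2 : (D : ℝ) ^ 7 / b ≤ (D : ℝ) ^ 7 / (D : ℝ) ^ (k + 9) := by gcongr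
  have h3 : (D : ℝ) ^ 7 / (D : ℝ) ^ (k + 9) = (1 / (D : ℝ)) ^ k * (1 / (D : ℝ) ^ 2) := by
    rw [pow_add, one_div_pow]
    field_simp
  have h4 : (1 / (D : ℝ)) ^ k ≤ (1 / 3) ^ k := by gcongr
  have h5 : 59049 * (1 / 3 : ℝ) ^ (k + 10) = (1 / 3) ^ k := by
    rw [pow_add, show ((1 : ℝ) / 3) ^ 10 = 1 / 59049 by norm_num]; ring
  rw [h5]
  calc _ ≤ _ := h2
    _ = _ := h3
    _ ≤ _ := by gcongr

/-- large `B(D)` -/
theorem case2 {x b D : ℕ} (hx : 1 ≤ x) (hD : 3 ≤ D) (hb : D ^ 4 ≤ b) (hbx : x < b * b) :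
    ((x / b : ℕ) : ℝ) ≤ x * (1 / √√(x : ℝ)) * (1 / (D : ℝ) ^ 2) := by
  have hx' : (0 : ℝ) < x := by exact_mod_cast hx
  have hD0 : (0 : ℝ) < D := by
    have : (3 : ℝ) ≤ D := by exact_mod_cast hD
    linarith
  have hb0 : (0 : ℝ) < b := by
    have h : (D : ℝ) ^ 4 ≤ b := by exact_mod_cast hb
    have : (0 : ℝ) < D ^ 4 := by positivity
    linarith
  have h1 : √√(x : ℝ) ≤ √(b : ℝ) := by
    apply Real.sqrt_le_sqrt
    rw [Real.sqrt_le_left hb0.le]
    have : (x : ℝ) ≤ b * b := by exact_mod_cast hbx.le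
    nlinarith
  have h2 : (D : ℝ) ^ 2 ≤ √(b : ℝ) := by
    apply Real.le_sqrt_of_sq_le
    have : (D : ℝ) ^ 4 ≤ b := by exact_mod_cast hb
    calc ((D : ℝ) ^ 2) ^ 2 = (D : ℝ) ^ 4 := by ring
      _ ≤ _ := this
  have h3 : √√(x : ℝ) * (D : ℝ) ^ 2 ≤ b := by
    calc _ ≤ √(b : ℝ) * √(b : ℝ) := by gcongr
      _ = b := Real.mul_self_sqrt hb0.le
  have h4 : 0 < √√(x : ℝ) := Real.sqrt_pos.2 (Real.sqrt_pos.2 hx')
  calc ((x / b : ℕ) : ℝ) ≤ (x : ℝ) / b := Nat.cast_div_le
    _ ≤ (x : ℝ) / (√√(x : ℝ) * (D : ℝ) ^ 2) := by gcongr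
    _ = _ := by field_simp

theorem small_rhs {x l : ℕ} (hl : 2 ≤ l) (hx : 488 ≤ LL x) (hlx : (l : ℝ) ^ 2 ≤ 900 * LL x)
    (hx1 : 0 < Real.log x) :
    1 / √√(x : ℝ) ≤ (1 / 3) ^ l * Real.exp (-(99 / 100) * LL x / ((l : ℝ) - 1)) := by
  have hl' : (2 : ℝ) ≤ l := by exact_mod_cast hl
  have hx0 : (0 : ℝ) < x := by
    rcases Nat.eq_zero_or_pos x with h | h
    · rw [h] at hx1; simp at hx1
    · exact_mod_cast h
  have hlog : Real.log x = Real.exp (LL x) := by
    unfold LL; rw [Real.exp_log hx1]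
  have h1 : √√(x : ℝ) = Real.exp (Real.exp (LL x) / 4) := by
    rw [← hlog]
    have : (x : ℝ) = Real.exp (Real.log x / 4) ^ 4 := by
      rw [← Real.exp_nat_mul]
      push_cast
      rw [mul_div_cancel₀ _ (by norm_num), Real.exp_log hx0]
    have h2 : √(x : ℝ) = Real.exp (Real.log x / 4) ^ 2 := by
      rw [Real.sqrt_eq_iff_mul_self_eq hx0.le (by positivity)]
      rw [← pow_add]; exact this
    rw [h2, Real.sqrt_sq (Real.exp_pos _).le]
  rw [h1, one_div, ← Real.exp_neg]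
  have h3 : (1 / 3 : ℝ) ^ l = Real.exp (-(l * Real.log 3)) := by
    rw [Real.exp_neg, mul_comm, Real.exp_mul, Real.exp_log (by norm_num), one_div, inv_pow,
      Real.rpow_natCast]
  rw [h3, ← Real.exp_add]
  apply Real.exp_le_exp.2
  have hl30 : (l : ℝ) ≤ 30 * LL x := by
    by_contra hc
    push Not at hc
    nlinarith
  have hlog3 : Real.log 3 ≤ 2 := by
    rw [Real.log_le_iff_le_exp (by norm_num)]
    have h5 := Real.quadratic_le_exp_of_nonneg (show (0 : ℝ) ≤ 2 by norm_num)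
    linarith
  have hlog3' : 0 < Real.log 3 := Real.log_pos (by norm_num)
  have h6 := Real.quadratic_le_exp_of_nonneg (show (0 : ℝ) ≤ LL x by linarith)
  have h7 : -(99 / 100) * LL x / ((l : ℝ) - 1) ≥ -(LL x) := by
    rw [ge_iff_le, le_div_iff₀ (by linarith)]
    nlinarith
  have h8 : (l : ℝ) * Real.log 3 ≤ 60 * LL x := by nlinarith
  nlinarith

theorem taskMI : TaskMI := by
  intro hRK hMAP F
  obtain ⟨C, hC, hRK⟩ := hRK
  obtain ⟨C1, x1, hC1, hMAP⟩ := hMAP
  set S2 : ℝ := ∑' n : ℕ, 1 / (n : ℝ) ^ 2 with hS2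
  have hsum : Summable fun n : ℕ => 1 / (n : ℝ) ^ 2 := Real.summable_one_div_nat_pow.2 (by norm_num)
  have hS20 : 0 ≤ S2 := tsum_nonneg fun n => by positivity
  have hLL : Tendsto (fun x : ℕ => LL x) atTop atTop :=
    Real.tendsto_log_atTop.comp (Real.tendsto_log_atTop.comp tendsto_natCast_atTop_atTop)
  obtain ⟨x2, hx2⟩ := Filter.eventually_atTop.1 (hLL.eventually_ge_atTop 488)
  set A : ℝ := C * Real.exp (99 / 100 * (1 + C1)) * 59049 + 1 with hA
  have hA0 : 0 < A := by positivity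
  refine ⟨A * (S2 + 1), max x2 (max (x1 ^ 2) (16 ^ 2)), 10, by positivity, ?_⟩
  intro x hx l hl hl10 hlx
  have hxx2 : x2 ≤ x := (le_max_left _ _).trans hx
  have hxx1 : x1 ^ 2 ≤ x := ((le_max_left _ _).trans (le_max_right _ _)).trans hx
  have hx16 : 16 ^ 2 ≤ x := ((le_max_right _ _).trans (le_max_right _ _)).trans hx
  have hL := hx2 x hxx2
  have hx0 : (0 : ℝ) < x := by
    have : 0 < x := by omega
    exact_mod_cast this
  have hlogx : 0 < Real.log x := by
    apply Real.log_pos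
    have : 1 < x := by omega
    exact_mod_cast this
  set s := Nat.sqrt x with hs
  have hs16 : 16 ≤ s := Nat.le_sqrt'.2 hx16
  have hsx1 : x1 ≤ s := Nat.le_sqrt'.2 hxx1
  have hLs := LL_sqrt x hs16
  have hl' : (10 : ℝ) ≤ l := by exact_mod_cast hl10
  set E : ℝ := Real.exp (-(99 / 100) * LL x / ((l : ℝ) - 1)) with hE
  have hE0 : 0 < E := Real.exp_pos _
  have hRS : LL x / ((l : ℝ) - 1) - 1 - C1 ≤ RS l s := by
    have h1 := hMAP s hsx1 l (Or.inl hl) (by linarith)
    have h2 : ((Nat.totient l : ℕ) : ℝ) = (l : ℝ) - 1 := by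
      rw [Nat.totient_prime hl, Nat.cast_sub hl.one_le]; simp
    rw [h2] at h1
    have h3 := (abs_le.1 h1).1
    have h4 : LL x / ((l : ℝ) - 1) - 1 ≤ LL s / ((l : ℝ) - 1) := by
      rw [div_sub' (by linarith), div_le_div_iff_of_pos_right (by linarith)]
      linarith
    linarith
  refine (union_bound hl F).trans ?_
  have hterm : ∀ D ∈ Icc 3 x, Nb (fun m => cnt l m ≤ Nat.log 2 D) (x / BB l D) ≤
      (A * ((1 / 3) ^ l * x * E)) * (1 / (D : ℝ) ^ 2) := by
    intro D hD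
    rw [mem_Icc] at hD
    have hb := pow_le_BB hl.two_le (show D ≠ 0 by omega)
    set b := BB l D with hbdef
    have hD3 : (3 : ℝ) ≤ D := by exact_mod_cast hD.1
    have hb1 : 1 ≤ b := Nat.pos_of_ne_zero (BB_ne l D)
    have hb0 : (0 : ℝ) < b := by exact_mod_cast hb1
    rcases le_or_gt (b * b) x with hbx | hbx
    · have hbs : b ≤ s := by
        rw [hs, Nat.le_sqrt]; exact hbx
      have hYs : s ≤ x / b := by
        rw [Nat.le_div_iff_mul_le hb1]
        calc s * b ≤ s * s := Nat.mul_le_mul_left _ hbs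
          _ ≤ x := Nat.sqrt_le x
      have h1 := hRK (x / b) l (Nat.log 2 D) (by omega) hl.one_le
      have h2 := RS_mono l hYs
      have h3 : Real.exp (-(99 / 100) * RS l (x / b)) ≤ Real.exp (99 / 100 * (1 + C1)) * E := by
        rw [hE, ← Real.exp_add]
        apply Real.exp_le_exp.2
        have h4 : -(99 / 100) * LL x / ((l : ℝ) - 1) = -(99 / 100) * (LL x / ((l : ℝ) - 1)) := by ring
        rw [h4]
        linarith
      have h5 := pow_log_bound D (by omega)
      have h6 : ((x / b : ℕ) : ℝ) ≤ (x : ℝ) / b := Nat.cast_div_le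
      have h7 := ratio_bound hl10 hD.1 hb
      calc _ ≤ C * 100 ^ Nat.log 2 D * ((x / b : ℕ) : ℝ) * Real.exp (-(99 / 100) * RS l (x / b)) := h1
        _ ≤ C * (D : ℝ) ^ 7 * ((x : ℝ) / b) * (Real.exp (99 / 100 * (1 + C1)) * E) := by gcongr
        _ = C * Real.exp (99 / 100 * (1 + C1)) * x * E * ((D : ℝ) ^ 7 / b) := by ring
        _ ≤ C * Real.exp (99 / 100 * (1 + C1)) * x * E *
            (59049 * (1 / 3) ^ l * (1 / (D : ℝ) ^ 2)) := by gcongr
        _ = (C * Real.exp (99 / 100 * (1 + C1)) * 59049) * ((1 / 3) ^ l * x * E) *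
            (1 / (D : ℝ) ^ 2) := by ring
        _ ≤ _ := by
          gcongr
          rw [hA]; linarith
    · have hb4 : D ^ 4 ≤ b := by
        refine le_trans (Nat.pow_le_pow_right (by omega) ?_) hb
        omega
      have h1 := case2 (by omega) hD.1 hb4 hbx
      have h2 := small_rhs hl.two_le hL hlx hlogx
      calc _ ≤ ((x / b : ℕ) : ℝ) := Nb_le _ _
        _ ≤ _ := h1
        _ ≤ x * ((1 / 3) ^ l * E) * (1 / (D : ℝ) ^ 2) := by gcongr
        _ = 1 * ((1 / 3) ^ l * x * E) * (1 / (D : ℝ) ^ 2) := by ring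
        _ ≤ _ := by
          gcongr
          rw [hA]
          have : 0 < C * Real.exp (99 / 100 * (1 + C1)) * 59049 := by positivity
          linarith
  refine (Finset.sum_le_sum hterm).trans ?_
  rw [← Finset.mul_sum]
  have h9 : ∑ D ∈ Icc 3 x, 1 / (D : ℝ) ^ 2 ≤ S2 := hsum.sum_le_tsum _ fun _ _ => by positivity
  calc A * ((1 / 3) ^ l * x * E) * ∑ D ∈ Icc 3 x, 1 / (D : ℝ) ^ 2 ≤
      A * ((1 / 3) ^ l * x * E) * (S2 + 1) := by gcongr; linarith
    _ = _ := by ring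

end Pool.Agent.Helper923.NA
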